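import Mathlib
import Pool.Agent.Y636.CL.JFinal
import Pool.Agent.W964.Wd.JuntaMain

/-!
# Finding the variables of small DNF formulas with few bits per random example: all balanced patterns

`N` parties hold one uniform random example `(x, f x)` of an unknown function `f` of `m` variables each and write on a
common blackboard, in any number of rounds, at most `b` bits per party.  Here `f = g (x_{s 0}, ..., x_{s (k-1)})` for a
known pattern `g` and unknown places `s`; such an `f` is computed by a DNF formula with at most `2 ^ k + 1` gates, so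
with polynomially many gates if `k = O(log m)`.  The parties have to find at most `k` variables which tell anything
about `f x` (positive advantage).  The starting result MessageBits treats parities.  Here the pattern is an arbitrary
function all of whose restrictions of `c` variables are balanced: then `N` has to be about `(c m / (k b)) ^ (c + 1)`,
whatever `g` is (1 and 3), while `(2 m / b) ^ k` examples, up to factors polynomial in `2 ^ k` and `log m`, suffice for
all patterns at once without interaction (2).  For the ideal parallel machines of the starting result ParallelLearners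
at least `m ^ ((1 - o(1)) (c / 2 + 1))` processors are needed, for any number of examples (4).

The proofs are those of `Pool.Agent.Y636.CL` and `Pool.Agent.W964.Wd.Junta` (starting library); they were not handed in
before.
-/

set_option autoImplicit false

namespace Pool.Agent.Results.MP_cba12a_lc.BalancedJuntas

open Pool.Agent.W964.Wd Pool.Agent.Y636.CL Finset

/-- A function with the pattern `g` of `k` variables at different places is computed by a DNF formula with at most
`2 ^ k + 1` gates. -/
theorem junta_dnf {m k : ℕ} (g : (Fin k → Bool) → Bool) (s : Fin k → Fin m)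
    (hs : Function.Injective s) : IsDnf (2 ^ k + 1) (junta g s) := by
  classical
  let P : Finset (Fin k → Bool) := univ.filter fun z => g z = true
  refine ⟨P.card, fun i => univ.image fun h : Fin k => (s h, (P.equivFin.symm i).1 h), ?_, ?_⟩
  · have h1 : P.card ≤ 2 ^ k := by
      refine (card_le_univ P).trans ?_
      rw [Fintype.card_fun, Fintype.card_fin, Fintype.card_bool]
    omega
  · intro x
    constructor
    · intro hx
      have hz : (fun h => x (s h)) ∈ P := mem_filter.2 ⟨mem_univ _, hx⟩
      refine ⟨P.equivFin ⟨_, hz⟩, ?_⟩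
      intro p hp
      obtain ⟨h, -, rfl⟩ := mem_image.1 hp
      simp
    · rintro ⟨i, hi⟩
      have hz := (mem_filter.1 (P.equivFin.symm i).2).2
      have e : (fun h => x (s h)) = (P.equivFin.symm i).1 := by
        funext h
        exact hi (s h, (P.equivFin.symm i).1 h) (mem_image.2 ⟨h, mem_univ _, rfl⟩)
      show g (fun h => x (s h)) = true
      rw [e]
      exact hz

/-- 0. Functions with a pattern of `k` variables are DNF formulas with at most `2 ^ k + 1` gates.

1. Lower bound.  Let `g` be a `c`-balanced function of `k > c` variables, `c + 1 ≤ 2 b` and `4 b ≤ (c + 1) ⌊m/k⌋`.  For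
every randomized interactive protocol with `N` examples and at most `b` bits per example there are places `s` such that
a set of at most `k` variables with a positive advantage for `g (x_s)` is found with probability at most
`3 binom(k, c+1) / ⌊m/k⌋ ^ (c+1) + 42 N (4 b / ((c + 1) ⌊m/k⌋)) ^ (c + 1)`.

2. Upper bound.  If `2 k ≤ b + 2`, `b ≤ m` and
`N ≥ (2 m / b) ^ k / η * (k log m + 2 ^ k log 2 + log (1 / δ))` some randomized protocol without interaction with `N`
examples and at most `b + 1` bits per example finds, for all patterns `g` of `k` variables and all places `s`, with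
probability at least `1 - δ` at most `k` variables with advantage at least `1/2 - η`.

3. For all `β, γ ∈ (0, 1]` and all large `m`: if `k, b ≤ m ^ (1 - β)`, `g` is a `c`-balanced function of `k` variables,
`c ≥ γ k`, and `N ≤ m ^ (β γ k / 4)` then every randomized interactive protocol with `N` examples and at most `b` bits
per example finds, for some places `s`, at most `k` variables with a positive advantage with probability at most
`m ^ (-β γ k / 4)`.

4. For `0 < ε ≤ 1` and `K` there is a `δ > 0` such that for large `m`, every `c`-balanced function `g` of `k` variables,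
`c ≥ 2`, `T ≥ 1` steps with `T log (k log m) ≤ δ log m`, `P ≤ m ^ ((1 - ε) (⌊c/2⌋ + 1))` processors and any number `N` of
examples, every randomized ideal parallel machine (lists of length at most `m ^ K`) finds, for some places `s`, at most
`k` variables with a positive advantage with probability at most `m ^ (-ε / 3)`. -/
theorem result :
    (∀ (m k : ℕ) (g : (Fin k → Bool) → Bool) (s : Fin k → Fin m), Function.Injective s →
      IsDnf (2 ^ k + 1) (junta g s)) ∧
    (∀ (m k N b c : ℕ) (g : (Fin k → Bool) → Bool), Balanced c g → c + 1 ≤ 2 * b → c + 1 ≤ k →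
      4 * b ≤ (c + 1) * (m / k) →
      ∀ (R : Type) [Fintype R] [Nonempty R] (π : R → Prot N (Ex m) (Finset (Fin m))),
        (∀ r j, (π r).load j ≤ b) →
        ∃ s : Fin k → Fin m, Function.Injective s ∧ Balanced c (junta g s) ∧
          findProbR (fun r => (π r).run) (junta g s)
            (fun A => A.card ≤ k ∧ 0 < adv (junta g s) A)
          ≤ 3 * (k.choose (c + 1) : ℝ) / ((m / k : ℕ) : ℝ) ^ (c + 1)
            + 42 * N * (4 * b / ((c + 1) * (m / k : ℕ))) ^ (c + 1)) ∧
    (∀ (m k N b : ℕ) (η δ : ℝ), 0 < η → 0 < δ → 2 * k ≤ b + 2 → 1 ≤ b → b ≤ m →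
      (2 * m / b : ℝ) ^ k / η * (k * Real.log m + 2 ^ k * Real.log 2 + Real.log (1 / δ)) ≤ N →
      ∃ (R : Type) (_ : Fintype R) (_ : Nonempty R) (π : R → Prot N (Ex m) (Finset (Fin m))),
        (∀ r j, (π r).load j ≤ b + 1) ∧ (∀ r, (π r).Silent (b + 1)) ∧
        ∀ (g : (Fin k → Bool) → Bool) (s : Fin k → Fin m),
          1 - δ ≤ findProbR (fun r => (π r).run) (junta g s)
            (fun A => A.card ≤ k ∧ 1 / 2 - η ≤ adv (junta g s) A)) ∧
    (∀ β γ : ℝ, 0 < β → β ≤ 1 → 0 < γ → γ ≤ 1 →
      ∃ m₀ : ℕ, ∀ m : ℕ, m₀ ≤ m → ∀ k c b N : ℕ, 1 ≤ k → (k : ℝ) ≤ (m : ℝ) ^ (1 - β) →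
        γ * k ≤ c → (b : ℝ) ≤ (m : ℝ) ^ (1 - β) → (N : ℝ) ≤ (m : ℝ) ^ (β * γ * k / 4) →
        ∀ g : (Fin k → Bool) → Bool, Balanced c g →
        ∀ (R : Type) [Fintype R] [Nonempty R] (π : R → Prot N (Ex m) (Finset (Fin m))),
          (∀ r j, (π r).load j ≤ b) →
          ∃ s : Fin k → Fin m, Function.Injective s ∧ Balanced c (junta g s) ∧
            findProbR (fun r => (π r).run) (junta g s)
              (fun A => A.card ≤ k ∧ 0 < adv (junta g s) A) ≤ (m : ℝ) ^ (-(β * γ * k / 4))) ∧
    (∀ (ε : ℝ) (K : ℕ), 0 < ε → ε ≤ 1 → ∃ δ : ℝ, 0 < δ ∧ ∃ m₀ : ℕ,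
      ∀ m : ℕ, m₀ ≤ m → ∀ (k c T P N : ℕ) (g : (Fin k → Bool) → Bool), 2 ≤ c →
        Balanced c g → 1 ≤ T → T * Real.log (k * Real.log m) ≤ δ * Real.log m →
        (P : ℝ) ≤ (m : ℝ) ^ ((1 - ε) * ((c / 2 + 1 : ℕ) : ℝ)) →
        ∀ R : RandMachine (Fin N → Bool) (Option (Fin m)) P, R.Lists (m ^ K) →
        ∀ dec : (ω : R.Ω) → (R.mach ω).V → Finset (Fin m), (∀ ω v, (dec ω v).card ≤ k) →
        ∃ s : Fin k → Fin m, Function.Injective s ∧ Balanced c (junta g s) ∧
          Pool.Agent.W964.Wd.learnProb R T (junta g s)
            (fun ω v => 0 < adv (junta g s) (dec ω v)) ≤ (m : ℝ) ^ (-(ε / 3))) := by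
  refine ⟨fun m k g s hs => junta_dnf g s hs, ?_, ?_, ?_, ?_⟩
  · intro m k N b c g hg hc hck hbm R _ _ π hb
    exact jlow_core hg π hb hc hck hbm
  · intro m k N b η δ hη hδ hkb hb hbm hN
    exact jup_core hη hδ hkb hb hbm hN
  · intro β γ hβ hβ1 hγ hγ1
    exact jlow_asym β γ hβ hβ1 hγ hγ1
  · intro ε K hε hε1
    exact junta_core ε hε hε1 K

end Pool.Agent.Results.MP_cba12a_lc.BalancedJuntas
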