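import Pool.Agent.N597.RK.Main
import Pool.Agent.N597.RK.Ind
import Pool.Agent.N597.RK.LLL
import Pool.Agent.N597.RK.ZerFixed
import Pool.Agent.N597.RK.Clo2
import Pool.Agent.N597.RK.Pic
import Pool.Agent.N597.RK.Cor
import Pool.Agent.N597.RK.LeafFam
import Pool.Agent.N597.RK.Pth
import Pool.Agent.N597.RK.Nod
import Pool.Agent.N597.RK.Unf
import Pool.Agent.N597.RK.Trc
import Pool.Agent.N597.RK.Few
import Pool.Agent.N597.RK.RepF
import Pool.Agent.N597.RK.Pai
import Pool.Agent.N597.RK.Rat
import Pool.Agent.N597.RK.Pat
import Pool.Agent.N597.RK.Fpo
import Pool.Agent.N597.RK.Lht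
import Pool.Agent.N597.RK.Fne
import Pool.Agent.N597.RK.Time

/-!
For every constant `k` a polynomial-time Turing machine learns, under the uniform distribution and
from random examples only, all DNF formulas in which every variable occurs in at most `k` terms. The
formulas need not be monotone or unate, and there is no restriction on the number and the size of
the terms.
-/

set_option autoImplicit false

namespace Pool.Agent.Results.MP_cba12a_lc.ReadKFormulas

open Pool.Agent.NPC

/-- A DNF formula, as the list of its terms. A term is the list of its literals; the literal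
`(i, b)` demands that the coordinate `i` is `b`. -/
abbrev DNF : Type := List (List (ℕ × Bool))

/-- Every variable occurs in at most `k` terms (with any sign). -/
def ReadAtMost (k : ℕ) (F : DNF) : Prop :=
  ∀ i : ℕ, (F.filter fun T => T.any fun l => decide (l.1 = i)).length ≤ k

/-- The value of the formula `F` at the point with the coordinates `x`: some term has only true
literals. -/
def value (F : DNF) (x : List Bool) : Bool := F.any fun T => T.all fun l => decide (x[l.1]? = some l.2)

/-- The sample of the labelled examples `(x j, F (x j))`. -/
def sample {n m : ℕ} (F : DNF) (x : Fin m → Fin n → Bool) : List (List Bool × Bool) :=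
  List.ofFn fun j => (List.ofFn (x j), value F (List.ofFn (x j)))

/-- The number of points of the cube `{0, 1} ^ n` at which the two formulas differ. -/
def errors (n : ℕ) (F H : DNF) : ℕ :=
  (Finset.univ.filter fun y : Fin n → Bool => value H (List.ofFn y) ≠ value F (List.ofFn y)).card

/-- The function `f` is computed by a Turing machine in polynomial time, with the codes of its
arguments and values by bit strings. -/
def Computed {α β : Type} [TEnc α] [TEnc β] (f : α → β) : Prop :=
  ∃ g : List Bool → List Bool, PolyTime g ∧ ∀ z, g (bits z) = bits (f z)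

theorem computed {f : List Unit × List (List Bool × Bool) → DNF} (hf : Poly f) : Computed f := by
  have h1 : Poly (fun x : List Bool =>
      (unbits (List Unit × List (List Bool × Bool)) x).map f) :=
    Poly.optMap (f := fun (_ : List Bool) a => f a) poly_unbits (hf.comp (Poly.snd Poly.id))
  refine ⟨_, polyTime_opt h1, fun a => ?_⟩
  simp only [unbits_bits, Option.map_some]

/-- For every `k` there are a number `C` and a learner with polynomial running time, whose input is
a number `t` in unary and a list of `m` labelled examples, with the following property. If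
`t ≥ C * n * e * d`, `m ≥ t ^ C` and `F` is a DNF formula in which every variable occurs in at most
`k` terms, then for all but a `1 / d` fraction of the samples of `m` points of `{0, 1} ^ n`, labelled
by `F`, the output is a DNF formula which differs from `F` at no more than a `1 / e` fraction of the
points of `{0, 1} ^ n`. -/
theorem result (k : ℕ) :
    ∃ C : ℕ, ∃ learner : List Unit × List (List Bool × Bool) → DNF, Computed learner ∧
      ∀ n e d : ℕ, 1 ≤ n → 1 ≤ e → 1 ≤ d → ∀ t m : ℕ, C * n * e * d ≤ t → t ^ C ≤ m →
        ∀ F : DNF, ReadAtMost k F →
          d * (Finset.univ.filter fun x : Fin m → Fin n → Bool =>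
            2 ^ n < e * errors n F (learner (List.replicate t (), sample F x))).card ≤
              2 ^ (n * m) := by
  have he := Pool.Agent.N597.RK.extsFacts
  have hi := Pool.Agent.N597.RK.indep
  have hit := Pool.Agent.N597.RK.indepTerm
  have hp := Pool.Agent.N597.RK.pathFacts he
  have hpat := Pool.Agent.N597.RK.patsFacts
  have htr := Pool.Agent.N597.RK.trailFacts
  have hcore := Pool.Agent.N597.RK.core
    (Pool.Agent.N597.RK.zerFix (Pool.Agent.N597.RK.lllStep hi) hi)
    Pool.Agent.N597.RK.Clo2.closure Pool.Agent.N597.RK.pickLit
  have hfp := Pool.Agent.N597.RK.falsePos hp (Pool.Agent.N597.RK.nodeCount hp hit) htr hpat he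
  have hleaf := Pool.Agent.N597.RK.leafHit Pool.Agent.N597.RK.fewBiased
    (Pool.Agent.N597.RK.ratioTest Pool.Agent.N597.RK.pairing) hpat he
    (Pool.Agent.N597.RK.leafFamily he) hit
  have hfn := Pool.Agent.N597.RK.falseNeg hleaf hp he (Pool.Agent.N597.RK.treeCases hp he) htr
    (Pool.Agent.N597.RK.unfinished hp he hit)
  obtain ⟨C, s, c1, c2, h⟩ := Pool.Agent.N597.RK.Main.main hcore hfp hfn
    Pool.Agent.N597.RK.repFail k
  exact ⟨C, _, computed (Pool.Agent.N597.RK.poly_learn s k (2 ^ s) c1 c2), h⟩

end Pool.Agent.Results.MP_cba12a_lc.ReadKFormulas
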