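import Pool.Agent.N587.DL.Conv
import Pool.Agent.NPC.Dec

/-!
A polynomial-time Turing machine learns DNF formulas with `s` terms in `n` variables from random
examples in time `n ^ O(log s) * poly(1 / ε, 1 / δ)` under the uniform distribution. The same holds
under every distribution whose density is at most `K` times the density of a product distribution
with marginals in `[1 / a, 1 - 1 / a]`, in time `(n ^ O(log s) * K / (ε δ)) ^ O(a)`; the product
distribution is not known to the learner.
-/

set_option autoImplicit false

namespace Pool.Agent.Results.MP_cba12a_lc.SmoothDistributions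

open Pool.Agent.NPC

/-- A DNF formula, as the list of its terms. A term is the list of its literals; the literal
`(i, b)` demands that the coordinate `i` is `b`. -/
abbrev DNF : Type := List (List (ℕ × Bool))

/-- The value of the formula `F` at the point with the coordinates `x`: some term has only true
literals. -/
def value (F : DNF) (x : List Bool) : Bool := F.any fun T => T.all fun l => decide (x[l.1]? = some l.2)

/-- The sample of the labelled examples `(x j, F (x j))`. -/
def sample {n m : ℕ} (F : DNF) (x : Fin m → Fin n → Bool) : List (List Bool × Bool) :=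
  List.ofFn fun j => (List.ofFn (x j), value F (List.ofFn (x j)))

/-- `w` is a probability distribution on the cube, and its density is at most `K` times the density
of a product distribution with marginals in `[1 / a, 1 - 1 / a]`. -/
def Smooth (a K : ℕ) {n : ℕ} (w : (Fin n → Bool) → ℝ) : Prop :=
  (∀ x, 0 ≤ w x) ∧ ∑ x, w x = 1 ∧ ∃ p : Fin n → ℝ,
    (∀ i, 1 / (a : ℝ) ≤ p i ∧ p i ≤ 1 - 1 / a) ∧ ∀ x, w x ≤ K * ∏ i, if x i then p i else 1 - p i

/-- The probability that two formulas differ at a point with the distribution `w`. -/
noncomputable def err {n : ℕ} (w : (Fin n → Bool) → ℝ) (F H : DNF) : ℝ :=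
  ∑ x, if value H (List.ofFn x) = value F (List.ofFn x) then 0 else w x

open Classical in
/-- The probability of the event `E` for `m` independent points with the distribution `w`. -/
noncomputable def prob {n : ℕ} (w : (Fin n → Bool) → ℝ) (m : ℕ)
    (E : (Fin m → Fin n → Bool) → Prop) : ℝ := ∑ x, if E x then ∏ j, w (x j) else 0

/-- The function `f` is computed by a Turing machine in polynomial time, with the codes of its
arguments and values by bit strings. -/
def Computed {α β : Type} [TEnc α] [TEnc β] (f : α → β) : Prop :=
  ∃ g : List Bool → List Bool, PolyTime g ∧ ∀ z, g (bits z) = bits (f z)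

theorem computed {f : List Unit × List (List Bool × Bool) → DNF} (hf : Poly f) : Computed f := by
  have h1 : Poly (fun x : List Bool =>
      (unbits (List Unit × List (List Bool × Bool)) x).map f) :=
    Poly.optMap (f := fun (_ : List Bool) a => f a) poly_unbits (hf.comp (Poly.snd Poly.id))
  refine ⟨_, polyTime_opt h1, fun a => ?_⟩
  simp only [unbits_bits, Option.map_some]

/-- For every `a ≥ 2` there is a learner with polynomial running time with the following property.
Its input is a number `t` in unary and a list of `m ≥ t ^ 6` labelled examples. If
`t ≥ ((2 n) ^ (log₂ s + 1) * s * K * e * d) ^ (8 a + 10)`, `F` is a DNF formula with at most `s`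
terms, `w` is a distribution on `{0, 1} ^ n` with density at most `K` times a product distribution
with marginals in `[1 / a, 1 - 1 / a]`, and the examples are independent with the distribution `w`,
then with probability at least `1 - 1 / d` the output is a DNF formula with error at most `1 / e`.
The uniform distribution is the case `a = 2`, `K = 1`. -/
theorem result (a : ℕ) (ha : 2 ≤ a) :
    ∃ learner : List Unit × List (List Bool × Bool) → DNF, Computed learner ∧
      ∀ n s K e d : ℕ, 1 ≤ n → 1 ≤ s → 1 ≤ K → 1 ≤ e → 1 ≤ d → ∀ t m : ℕ,
        ((2 * n) ^ (Nat.log 2 s + 1) * s * K * e * d) ^ (8 * a + 10) ≤ t → t ^ 6 ≤ m →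
        ∀ F : DNF, F.length ≤ s → ∀ w : (Fin n → Bool) → ℝ, Smooth a K w →
          prob w m (fun x => 1 / (e : ℝ) < err w F (learner (List.replicate t (), sample F x))) ≤
            1 / d := by
  refine ⟨_, computed (Pool.Agent.N587.DL.poly_learn a), ?_⟩
  rintro n s K e d hn hs hK he hd t m ht hm F hF w ⟨hw, hw1, p, hp, hwK⟩
  have h1 := Pool.Agent.N587.DL.learn_sum hn hs hK he hd ha ht hm F hF w hw hw1 p hp hwK
  refine le_trans (le_of_eq ?_) h1
  unfold prob
  refine Finset.sum_congr rfl fun x _ => ?_
  have h2 : ∀ H : DNF, err w F H = Pool.Agent.N587.DL.err F w H := fun H => by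
    unfold err Pool.Agent.N587.DL.err
    refine Finset.sum_congr rfl fun y _ => ?_
    change (if Pool.Agent.N587.DL.dnfSat H (List.ofFn y) =
      Pool.Agent.N587.DL.dnfSat F (List.ofFn y) then (0 : ℝ) else w y) = _
    by_cases h : Pool.Agent.N587.DL.dnfSat H (List.ofFn y) =
      Pool.Agent.N587.DL.dnfSat F (List.ofFn y) <;> simp [h]
  simp only [h2]
  rfl

end Pool.Agent.Results.MP_cba12a_lc.SmoothDistributions
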