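import Pool.Agent.N587.DM.TM
import Pool.Agent.NPC.Dec

/-!
A polynomial-time Turing machine learns monotone, and more generally unate, DNF formulas with `s`
terms in `n` variables from random examples in time `s ^ O(log s) * poly(n, 1 / ε, 1 / δ)` under the
uniform distribution and, more generally, under all product distributions with marginals in
`[1 / a, 1 - 1 / a]`. The time is polynomial in `n`, `1 / ε` and `1 / δ` for
`s = 2 ^ O(sqrt (log n))`.
-/

set_option autoImplicit false

namespace Pool.Agent.Results.MP_cba12a_lc.UnateFormulas

open Pool.Agent.NPC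

/-- A DNF formula, as the list of its terms. A term is the list of its literals; the literal
`(i, b)` demands that the coordinate `i` is `b`. -/
abbrev DNF : Type := List (List (ℕ × Bool))

/-- Every variable occurs with one sign only. In particular monotone formulas (all literals are
`(i, true)`) are unate. -/
def Unate (F : DNF) : Prop := ∃ σ : ℕ → Bool, ∀ T ∈ F, ∀ l ∈ T, l.2 = σ l.1

/-- The value of the formula `F` at the point with the coordinates `x`: some term has only true
literals. -/
def value (F : DNF) (x : List Bool) : Bool := F.any fun T => T.all fun l => decide (x[l.1]? = some l.2)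

/-- The sample of the labelled examples `(x j, F (x j))`. -/
def sample {n m : ℕ} (F : DNF) (x : Fin m → Fin n → Bool) : List (List Bool × Bool) :=
  List.ofFn fun j => (List.ofFn (x j), value F (List.ofFn (x j)))

/-- The product distribution on the cube with the marginals `p`. -/
noncomputable def weight {n : ℕ} (p : Fin n → ℝ) (x : Fin n → Bool) : ℝ :=
  ∏ i, if x i then p i else 1 - p i

/-- The probability that two formulas differ at a point with the distribution `w`. -/
noncomputable def err {n : ℕ} (w : (Fin n → Bool) → ℝ) (F H : DNF) : ℝ :=
  ∑ x, if value H (List.ofFn x) = value F (List.ofFn x) then 0 else w x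

open Classical in
/-- The probability of the event `E` for `m` independent points with the distribution `w`. -/
noncomputable def prob {n : ℕ} (w : (Fin n → Bool) → ℝ) (m : ℕ)
    (E : (Fin m → Fin n → Bool) → Prop) : ℝ := ∑ x, if E x then ∏ j, w (x j) else 0

/-- The function `f` is computed by a Turing machine in polynomial time, with the codes of its
arguments and values by bit strings. -/
def Computed {α β : Type} [TEnc α] [TEnc β] (f : α → β) : Prop :=
  ∃ g : List Bool → List Bool, PolyTime g ∧ ∀ z, g (bits z) = bits (f z)

theorem computed {f : List Unit × List (List Bool × Bool) → DNF} (hf : Poly f) : Computed f := by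
  have h1 : Poly (fun x : List Bool =>
      (unbits (List Unit × List (List Bool × Bool)) x).map f) :=
    Poly.optMap (f := fun (_ : List Bool) a => f a) poly_unbits (hf.comp (Poly.snd Poly.id))
  refine ⟨_, polyTime_opt h1, fun a => ?_⟩
  simp only [unbits_bits, Option.map_some]

/-- For every `a ≥ 2` there is a learner with polynomial running time with the following property.
Its input is a number `t` in unary and a list of `m ≥ t ^ 32` labelled examples. If
`t ≥ ((n + 1) * s ^ (log₂ s + 1) * e * d) ^ (6000 a ^ 2)`, `F` is a unate DNF formula with at most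
`s` terms, and the examples are independent with a product distribution on `{0, 1} ^ n` with
marginals in `[1 / a, 1 - 1 / a]`, then with probability at least `1 - 1 / d` the output is a DNF
formula with error at most `1 / e`. -/
theorem result (a : ℕ) (ha : 2 ≤ a) :
    ∃ learner : List Unit × List (List Bool × Bool) → DNF, Computed learner ∧
      ∀ n s e d : ℕ, 1 ≤ n → 1 ≤ s → 1 ≤ e → 1 ≤ d → ∀ t m : ℕ,
        ((n + 1) * s ^ (Nat.log 2 s + 1) * e * d) ^ (6000 * a ^ 2) ≤ t → t ^ 32 ≤ m →
        ∀ F : DNF, Unate F → F.length ≤ s → ∀ p : Fin n → ℝ,
          (∀ i, 1 / (a : ℝ) ≤ p i ∧ p i ≤ 1 - 1 / a) →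
          prob (weight p) m (fun x =>
            1 / (e : ℝ) < err (weight p) F (learner (List.replicate t (), sample F x))) ≤ 1 / d := by
  refine ⟨_, computed (Pool.Agent.N587.DM.poly_learnU a), ?_⟩
  intro n s e d hn hs he hd t m ht hm F hU hF p hp
  have h1 := Pool.Agent.N587.DM.learnU_sum hn hs he hd ha ht hm hU hF hp
  refine le_trans (le_of_eq ?_) h1
  unfold prob
  refine Finset.sum_congr rfl fun x _ => ?_
  have h2 : ∀ H : DNF, err (weight p) F H =
      Pool.Agent.N587.DL.err F (Pool.Agent.N587.DM.wp p) H := fun H => by
    unfold err Pool.Agent.N587.DL.err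
    refine Finset.sum_congr rfl fun y _ => ?_
    change (if Pool.Agent.N587.DL.dnfSat H (List.ofFn y) =
      Pool.Agent.N587.DL.dnfSat F (List.ofFn y) then (0 : ℝ) else
        Pool.Agent.N587.DM.wp p y) = _
    by_cases h : Pool.Agent.N587.DL.dnfSat H (List.ofFn y) =
      Pool.Agent.N587.DL.dnfSat F (List.ofFn y) <;> simp [h]
  simp only [h2]
  rfl

end Pool.Agent.Results.MP_cba12a_lc.UnateFormulas
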